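import Pool.Agent.Helper90.SP.Def

/-!
Block SP-S1 (for EveryExtension of MP_9fc8a5_nt): Schur's polynomial of degree `2^m` is irreducible.

Proof. `n = 2^m`, `c = 2^(-(n-1)/n)`. The Gauss norm `|f|_c = max |f_k|_2 c^k` is multiplicative
(`Polynomial.gaussNorm_mul`). `v₂(n!) = n - 1` and `v₂(k!) ≤ k - 1` for `k ≥ 1` give `|E n|_c = c^n = |E n (0)|_2`.
If `E n = g h` with `g`, `h` monic of degrees `a`, `b`, then `c^a ≤ |g|_c`, `c^b ≤ |h|_c`, `|g(0)|_2 ≤ |g|_c`,
`|h(0)|_2 ≤ |h|_c` and both products of the lower bounds are `c^n = |g|_c |h|_c`, so `|g(0)|_2 = |g|_c = c^a`; so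
`n v₂(g(0)) = (n-1) a`, `n` divides `a`, `a = 0` or `a = n`.
-/

set_option autoImplicit false

namespace Pool.Agent.Helper90.SP

open Polynomial

/-- `v₂((2^m)!) = 2^m - 1`. -/
private lemma val_two_pow (m : ℕ) : padicValNat 2 (2 ^ m).factorial + 1 = 2 ^ m := by
  have : Fact (Nat.Prime 2) := ⟨Nat.prime_two⟩
  induction m with
  | zero => simp
  | succ m ih =>
    rw [pow_succ, mul_comm, padicValNat_factorial_mul]
    omega

private lemma padic_nat (x : ℕ) (hx : x ≠ 0) :
    haveI : Fact (Nat.Prime 2) := ⟨Nat.prime_two⟩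
    Rat.AbsoluteValue.padic 2 (x : ℚ) = (1 / 2 : ℝ) ^ padicValNat 2 x := by
  have : Fact (Nat.Prime 2) := ⟨Nat.prime_two⟩
  rw [Rat.AbsoluteValue.padic_eq_padicNorm, padicNorm.eq_zpow_of_nonzero (by exact_mod_cast hx),
    padicValRat.of_nat, Rat.cast_zpow, zpow_neg, zpow_natCast, one_div, inv_pow]
  norm_num

private lemma weight_le (n k : ℕ) (hk1 : 1 ≤ k) (hkn : k ≤ n) (c : ℝ) (hc0 : 0 ≤ c)
    (hc : c ^ n = (1 / 2 : ℝ) ^ (n - 1)) : c ^ k * 2 ^ (k - 1) ≤ 1 := by
  have h0 : 0 ≤ c ^ k * 2 ^ (k - 1) := by positivity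
  rw [← pow_le_one_iff_of_nonneg h0 (n := n) (by omega)]
  rw [mul_pow, ← pow_mul, mul_comm k n, pow_mul, hc, ← pow_mul, ← pow_mul, one_div, inv_pow,
    inv_mul_le_iff₀ (by positivity), mul_one]
  apply pow_le_pow_right₀ one_le_two
  obtain ⟨j, rfl⟩ : ∃ j, k = j + 1 := ⟨k - 1, by omega⟩
  obtain ⟨i, rfl⟩ : ∃ i, n = (j + 1) + i := ⟨n - (j + 1), by omega⟩
  simp only [Nat.add_sub_cancel]
  have : j + 1 + i - 1 = j + i := by omega
  rw [this]
  nlinarith

theorem E_irreducible (m : ℕ) : Irreducible (E (2 ^ m)) := by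
  have : Fact (Nat.Prime 2) := ⟨Nat.prime_two⟩
  have hval := val_two_pow m
  have hn0 : 0 < 2 ^ m := by positivity
  generalize 2 ^ m = n at hval hn0 ⊢
  have hvn : padicValNat 2 n.factorial = n - 1 := by omega
  rw [(E_monic n).irreducible_iff_natDegree]
  refine ⟨?_, ?_⟩
  · intro h
    have := congrArg natDegree h
    rw [E_natDegree, natDegree_one] at this
    omega
  · intro g h hg hh hgh
    set v : AbsoluteValue ℚ ℝ := Rat.AbsoluteValue.padic 2 with hv
    have hna : IsNonarchimedean v := by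
      intro x y
      show ((padicNorm 2 (x + y) : ℚ) : ℝ) ≤ max ((padicNorm 2 x : ℚ) : ℝ) ((padicNorm 2 y : ℚ) : ℝ)
      exact_mod_cast padicNorm.nonarchimedean (p := 2) (q := x) (r := y)
    obtain ⟨c, hc0, hc⟩ : ∃ c : ℝ, 0 < c ∧ c ^ n = (1 / 2 : ℝ) ^ (n - 1) := by
      refine ⟨((1 / 2 : ℝ) ^ (n - 1)) ^ ((n : ℝ)⁻¹), by positivity, ?_⟩
      exact Real.rpow_inv_natCast_pow (by positivity) (by omega)
    -- the Gauss norm of `E n`
    have hE : (E n).gaussNorm v c ≤ (1 / 2 : ℝ) ^ (n - 1) := by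
      obtain ⟨k, hk⟩ := exists_eq_gaussNorm v c (E n)
      rw [hk, E_coeff]
      split_ifs with hkn
      · rw [map_div₀, padic_nat _ n.factorial_ne_zero, padic_nat _ k.factorial_ne_zero, hvn]
        rcases Nat.eq_zero_or_pos k with rfl | hk1
        · simp
        · have h1 : padicValNat 2 k.factorial ≤ k - 1 := by
            have := padicValNat_factorial_lt_of_ne_zero 2 (n := k) (by omega)
            omega
          have h2 := weight_le n k hk1 hkn c hc0.le hc
          have h3 : ((1 / 2 : ℝ) ^ padicValNat 2 k.factorial)⁻¹ ≤ 2 ^ (k - 1) := by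
            rw [one_div, inv_pow, inv_inv]
            exact pow_le_pow_right₀ one_le_two h1
          calc (1 / 2 : ℝ) ^ (n - 1) / (1 / 2) ^ padicValNat 2 k.factorial * c ^ k
              = (1 / 2 : ℝ) ^ (n - 1) * (c ^ k * ((1 / 2 : ℝ) ^ padicValNat 2 k.factorial)⁻¹) := by
                ring
            _ ≤ (1 / 2 : ℝ) ^ (n - 1) * (c ^ k * 2 ^ (k - 1)) := by gcongr
            _ ≤ (1 / 2 : ℝ) ^ (n - 1) * 1 := by gcongr
            _ = (1 / 2 : ℝ) ^ (n - 1) := mul_one _
      · rw [map_zero, zero_mul]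
        positivity
    have hprod := gaussNorm_mul hna hc0 g h
    rw [hgh] at hprod
    rw [hprod] at hE
    have hdeg : g.natDegree + h.natDegree = n := by
      rw [← hg.natDegree_mul hh, hgh, E_natDegree]
    -- lower bounds
    have hga : c ^ g.natDegree ≤ g.gaussNorm v c := by
      have := le_gaussNorm v g hc0.le g.natDegree
      rwa [hg.coeff_natDegree, map_one, one_mul] at this
    have hhb : c ^ h.natDegree ≤ h.gaussNorm v c := by
      have := le_gaussNorm v h hc0.le h.natDegree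
      rwa [hh.coeff_natDegree, map_one, one_mul] at this
    have hg0 : v (g.coeff 0) ≤ g.gaussNorm v c := by
      have := le_gaussNorm v g hc0.le 0
      rwa [pow_zero, mul_one] at this
    have hh0 : v (h.coeff 0) ≤ h.gaussNorm v c := by
      have := le_gaussNorm v h hc0.le 0
      rwa [pow_zero, mul_one] at this
    have h00 : v (g.coeff 0) * v (h.coeff 0) = (1 / 2 : ℝ) ^ (n - 1) := by
      rw [← map_mul, ← mul_coeff_zero, hgh, E_zero, padic_nat _ n.factorial_ne_zero, hvn]
    have hcc : c ^ g.natDegree * c ^ h.natDegree = (1 / 2 : ℝ) ^ (n - 1) := by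
      rw [← pow_add, hdeg, hc]
    have hpos : 0 < (1 / 2 : ℝ) ^ (n - 1) := by positivity
    have hca : 0 < c ^ g.natDegree := by positivity
    have hcb : 0 < c ^ h.natDegree := by positivity
    have hgG : 0 < g.gaussNorm v c := lt_of_lt_of_le hca hga
    have hhG : 0 < h.gaussNorm v c := lt_of_lt_of_le hcb hhb
    have hg0' : 0 ≤ v (g.coeff 0) := v.nonneg _
    have hh0' : 0 ≤ v (h.coeff 0) := v.nonneg _
    have e1 : c ^ g.natDegree = g.gaussNorm v c := by
      apply le_antisymm hga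
      by_contra hlt
      push Not at hlt
      have : c ^ g.natDegree * c ^ h.natDegree < g.gaussNorm v c * h.gaussNorm v c := by
        calc c ^ g.natDegree * c ^ h.natDegree
            < g.gaussNorm v c * c ^ h.natDegree := by gcongr
          _ ≤ g.gaussNorm v c * h.gaussNorm v c := by gcongr
      linarith
    have e2 : v (g.coeff 0) = g.gaussNorm v c := by
      apply le_antisymm hg0
      by_contra hlt
      push Not at hlt
      have : v (g.coeff 0) * v (h.coeff 0) < g.gaussNorm v c * h.gaussNorm v c := by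
        calc v (g.coeff 0) * v (h.coeff 0)
            ≤ v (g.coeff 0) * h.gaussNorm v c := by gcongr
          _ < g.gaussNorm v c * h.gaussNorm v c := by gcongr
      linarith
    -- the valuation of the constant coefficient
    have e3 : v (g.coeff 0) ^ n = (1 / 2 : ℝ) ^ ((n - 1) * g.natDegree) := by
      rw [e2, ← e1, ← pow_mul, mul_comm g.natDegree n, pow_mul, hc, ← pow_mul]
    have hgne : g.coeff 0 ≠ 0 := by
      intro h0
      rw [h0, map_zero, zero_pow (by omega)] at e3
      have : 0 < (1 / 2 : ℝ) ^ ((n - 1) * g.natDegree) := by positivity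
      linarith
    have e4 : v (g.coeff 0) = (2 : ℝ) ^ (-padicValRat 2 (g.coeff 0)) := by
      rw [hv, Rat.AbsoluteValue.padic_eq_padicNorm, padicNorm.eq_zpow_of_nonzero hgne]
      push_cast
      rfl
    rw [e4, ← zpow_natCast, ← zpow_mul, one_div, inv_pow, ← zpow_natCast (2 : ℝ) ((n - 1) * _),
      ← zpow_neg] at e3
    have e5 := zpow_right_injective₀ (a := (2 : ℝ)) (by norm_num) (by norm_num) e3
    push_cast [Nat.cast_sub hn0] at e5
    have e6 : (n : ℤ) ∣ (g.natDegree : ℤ) := by
      refine ⟨(g.natDegree : ℤ) - padicValRat 2 (g.coeff 0), ?_⟩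
      linear_combination -e5
    have e7 : n ∣ g.natDegree := by exact_mod_cast e6
    rcases Nat.eq_zero_or_pos g.natDegree with h1 | h1
    · exact Or.inl h1
    · right
      have := Nat.le_of_dvd h1 e7
      omega

end Pool.Agent.Helper90.SP
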