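import Pool.Agent.Helper90.SP.Def

/-!
Block SP-S2 (for EveryExtension of MP_9fc8a5_nt): a prime `p` with `n/2 < p ≤ n` divides the degree of every Galois
extension `L` of `ℚ` which contains all roots of Schur's polynomial of degree `n`.

Proof. The product of the roots is `± n!`, divisible by `p`; so a prime `w` of the integers of `L` above `p` divides a
root `α` (the roots are integral). Let `w` be the additive valuation, `a = w(α) > 0`, `e = w(p)`. `n!/k!` is prime to `p` for
`p ≤ k ≤ n`, and divisible by `p` exactly once for `k < p`. In `∑ (n!/k!) α^k = 0` the terms with `k < p` have valuation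
`e + k a`, minimal for `k = 0`: `e`; those with `k ≥ p` have valuation `k a`, minimal for `k = p`: `p a`. If `e ≠ p a` the
minimum is attained once: contradiction (`Valuation.map_sum_eq_of_lt`). So `e = p a`, `p` divides the ramification index
`e` of `w` over `p` (`IsDedekindDomain.HeightOneSpectrum.valuation_liesOver`), which divides `[L:ℚ]`
(`Ideal.ncard_primesOver_mul_ramificationIdxIn_mul_inertiaDegIn`).
-/

set_option autoImplicit false

namespace Pool.Agent.Helper90.SP

open Polynomial NumberField IsDedekindDomain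

/-- `n!/k!` is prime to `p` for `k ≥ p`. -/
private lemma not_dvd57 {n p k : ℕ} (hp : p.Prime) (h1 : n < 2 * p) (hpk : p ≤ k) (hk : k ≤ n) :
    ¬ p ∣ n.factorial / k.factorial := by
  intro h
  have h2 : p * k.factorial ∣ n.factorial := by
    obtain ⟨c, hc⟩ := h
    have h3 := Nat.div_mul_cancel (Nat.factorial_dvd_factorial hk)
    rw [hc] at h3
    exact ⟨c, by rw [← h3]; ring⟩
  have h4 : p * p ∣ n.factorial := (Nat.mul_dvd_mul_left p ((hp.dvd_factorial).2 hpk)).trans h2
  -- `p * p` does not divide `n!` for `n < 2 p`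
  have h5 : ∀ m : ℕ, m < 2 * p → ¬ p * p ∣ m.factorial := by
    intro m
    induction m with
    | zero =>
      intro _ h
      have := Nat.le_of_dvd one_pos h
      nlinarith [hp.two_le]
    | succ m ih =>
      intro hm h
      rw [Nat.factorial_succ] at h
      by_cases hpm : p ∣ m + 1
      · obtain ⟨c, hc⟩ := hpm
        have hc1 : c = 1 := by
          have h6 : c < 2 := by
            by_contra hcc
            push Not at hcc
            nlinarith [hp.pos]
          have h7 : c ≠ 0 := by
            rintro rfl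
            omega
          omega
        rw [hc1, mul_one] at hc
        rw [hc] at h
        have h8 : p ∣ m.factorial := (Nat.mul_dvd_mul_iff_left hp.pos).1 h
        rw [hp.dvd_factorial] at h8
        omega
      · have h9 : Nat.Coprime (p * p) (m + 1) := by
          have := (hp.coprime_iff_not_dvd).2 hpm
          exact this.mul_left this
        exact ih (by omega) (h9.dvd_of_dvd_mul_left h)
  exact h5 n h1 h4

/-- `n!/k!` is divisible by `p` exactly once for `k < p`. -/
private lemma once57 {n p k : ℕ} (hp : p.Prime) (h1 : n < 2 * p) (h2 : p ≤ n) (hpk : k < p) :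
    ∃ u : ℕ, ¬ p ∣ u ∧ n.factorial / k.factorial = p * u := by
  have hk : k ≤ n := by omega
  have hkk : ¬ p ∣ k.factorial := by rw [hp.dvd_factorial]; omega
  have h3 := Nat.div_mul_cancel (Nat.factorial_dvd_factorial hk)
  have h4 := Nat.div_mul_cancel (Nat.factorial_dvd_factorial h2)
  have h5 : p ∣ n.factorial / k.factorial := by
    have h6 : p ∣ n.factorial / k.factorial * k.factorial := by rw [h3, hp.dvd_factorial]; exact h2
    rcases hp.dvd_mul.1 h6 with h | h
    · exact h
    · exact absurd h hkk
  obtain ⟨u, hu⟩ := h5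
  refine ⟨u, ?_, hu⟩
  intro hpu
  obtain ⟨c, hc⟩ := hpu
  have h7 := not_dvd57 hp h1 (le_refl p) h2
  -- `n!/k! * k! = n!/p! * p!`, `p! = p (p-1)!`
  have h8 : p * (p * c) * k.factorial = n.factorial / p.factorial * (p * (p - 1).factorial) := by
    rw [Nat.mul_factorial_pred hp.ne_zero, h4, ← h3, hu, hc]
  have h9 : p * (c * k.factorial) = n.factorial / p.factorial * (p - 1).factorial := by
    have h10 : p * (p * (c * k.factorial)) = p * (n.factorial / p.factorial * (p - 1).factorial) := by
      calc p * (p * (c * k.factorial)) = p * (p * c) * k.factorial := by ring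
        _ = _ := h8
        _ = _ := by ring
    exact Nat.eq_of_mul_eq_mul_left hp.pos h10
  have h11 : p ∣ n.factorial / p.factorial * (p - 1).factorial := ⟨_, h9.symm⟩
  rcases hp.dvd_mul.1 h11 with h | h
  · exact h7 h
  · rw [hp.dvd_factorial] at h
    have := hp.pos
    omega

theorem dvd_finrank {n p : ℕ} (hp : p.Prime) (h1 : n < 2 * p) (h2 : p ≤ n) (L : Type) [Field L]
    [NumberField L] [IsGalois ℚ L] (hs : ((E n).map (algebraMap ℚ L)).Splits) :
    p ∣ Module.finrank ℚ L := by
  have := Fact.mk hp
  -- the prime of `ℤ` and one above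
  set q : Ideal ℤ := Ideal.span {(p : ℤ)} with hq
  have hqp : q.IsPrime := by
    rw [hq, Ideal.span_singleton_prime (by exact_mod_cast hp.ne_zero)]
    exact Nat.prime_iff_prime_int.1 hp
  have hq0 : q ≠ ⊥ := by
    rw [hq, Ne, Ideal.span_singleton_eq_bot]
    exact_mod_cast hp.ne_zero
  obtain ⟨⟨P, hP, hPq⟩⟩ := (inferInstance : Nonempty (Ideal.primesOver q (𝓞 L)))
  have hP0 : P ≠ ⊥ := Ideal.ne_bot_of_liesOver_of_ne_bot hq0 P
  let v : HeightOneSpectrum (𝓞 L) := ⟨P, hP, hP0⟩
  set w : Valuation L (WithZero (Multiplicative ℤ)) := v.valuation L with hw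
  -- natural numbers
  have hmem : ∀ m : ℕ, ((m : 𝓞 L) ∈ P) ↔ p ∣ m := by
    intro m
    have h := Ideal.mem_of_liesOver P q (m : ℤ)
    rw [map_natCast] at h
    rw [← h, hq, Ideal.mem_span_singleton]
    exact Int.natCast_dvd_natCast
  have hcast : ∀ m : ℕ, (m : L) = algebraMap (𝓞 L) L (m : 𝓞 L) := fun m => by rw [map_natCast]
  have hw1 : ∀ m : ℕ, ¬ p ∣ m → w (m : L) = 1 := by
    intro m hm
    rw [hcast, hw, v.valuation_eq_one_iff_notMem]
    exact fun h => hm ((hmem m).1 h)
  have hwp : w (p : L) < 1 := by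
    rw [hcast, hw, v.valuation_lt_one_iff_mem]
    exact (hmem p).2 dvd_rfl
  have hp0 : (p : L) ≠ 0 := by exact_mod_cast hp.ne_zero
  have hwp0 : w (p : L) ≠ 0 := by rw [Valuation.ne_zero_iff]; exact hp0
  -- integral elements
  have hint : ∀ x : L, IsIntegral ℤ x → w x ≤ 1 := by
    intro x hx
    have : x = algebraMap (𝓞 L) L ⟨x, hx⟩ := rfl
    rw [this]
    exact v.valuation_le_one _
  have hmon : ((E n).map (algebraMap ℚ L)).Monic := (E_monic n).map _
  -- the integral polynomial
  have hroot : ∀ x : L, x ∈ ((E n).map (algebraMap ℚ L)).roots →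
      ∑ k ∈ Finset.range (n + 1), ((n.factorial / k.factorial : ℕ) : L) * x ^ k = 0 := by
    intro x hx
    rw [mem_roots hmon.ne_zero, IsRoot.def, eval_map, eval₂_eq_sum_range] at hx
    rw [E_natDegree] at hx
    rw [← hx]
    refine Finset.sum_congr rfl fun k hk => ?_
    rw [Finset.mem_range, Nat.lt_succ_iff] at hk
    rw [E_coeff, if_pos hk, E_coeff_int n k hk, map_natCast]
  have hrootint : ∀ x : L, x ∈ ((E n).map (algebraMap ℚ L)).roots → IsIntegral ℤ x := by
    intro x hx
    refine ⟨∑ k ∈ Finset.range (n + 1), C ((n.factorial / k.factorial : ℕ) : ℤ) * X ^ k, ?_, ?_⟩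
    · have h : (∑ k ∈ Finset.range (n + 1), C ((n.factorial / k.factorial : ℕ) : ℤ) * X ^ k : ℤ[X]).map
          (Int.castRingHom ℚ) = E n := by
        rw [Polynomial.map_sum, E]
        refine Finset.sum_congr rfl fun k hk => ?_
        rw [Finset.mem_range, Nat.lt_succ_iff] at hk
        rw [Polynomial.map_mul, Polynomial.map_pow, Polynomial.map_X, Polynomial.map_C, E_coeff_int n k hk,
          eq_intCast, Int.cast_natCast]
      refine Polynomial.monic_of_injective (f := Int.castRingHom ℚ) Int.cast_injective ?_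
      rw [h]
      exact E_monic n
    · rw [eval₂_finsetSum]
      simp only [eval₂_mul, eval₂_C, eval₂_pow, eval₂_X]
      have h := hroot x hx
      rw [← h]
      refine Finset.sum_congr rfl fun k _ => ?_
      rw [eq_intCast, Int.cast_natCast]
  -- a root divisible by `P`
  obtain ⟨x, hx, hx1⟩ : ∃ x ∈ ((E n).map (algebraMap ℚ L)).roots, w x < 1 := by
    by_contra hcon
    push Not at hcon
    have h3 := hs.coeff_zero_eq_prod_roots_of_monic hmon
    have h4 : w (((E n).map (algebraMap ℚ L)).roots.prod) = 1 := by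
      rw [map_multiset_prod]
      apply Multiset.prod_eq_one
      intro y hy
      rw [Multiset.mem_map] at hy
      obtain ⟨x, hx, rfl⟩ := hy
      exact le_antisymm (hint x (hrootint x hx)) (hcon x hx)
    have h5 : w (((E n).map (algebraMap ℚ L)).coeff 0) = 1 := by
      rw [h3, map_mul, h4, mul_one, map_pow, Valuation.map_neg, map_one, one_pow]
    rw [coeff_map, E_zero, map_natCast, hcast, hw, v.valuation_eq_one_iff_notMem] at h5
    exact h5 ((hmem _).2 ((hp.dvd_factorial).2 h2))
  have hx0 : x ≠ 0 := by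
    rintro rfl
    have h3 := hroot 0 hx
    rw [Finset.sum_eq_single_of_mem 0 (Finset.mem_range.2 (by omega))
      (fun k _ hk => by rw [zero_pow hk, mul_zero])] at h3
    simp only [pow_zero, mul_one, Nat.factorial_zero, Nat.div_one] at h3
    have : (n.factorial : L) ≠ 0 := by exact_mod_cast n.factorial_ne_zero
    exact this h3
  have hwx0 : w x ≠ 0 := by rw [Valuation.ne_zero_iff]; exact hx0
  have hwxpos : 0 < w x := zero_lt_iff.2 hwx0
  have hwppos : 0 < w (p : L) := zero_lt_iff.2 hwp0
  -- the valuations of the terms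
  have hlow : ∀ k, k < p → w (((n.factorial / k.factorial : ℕ) : L) * x ^ k) = w (p : L) * w x ^ k := by
    intro k hk
    obtain ⟨u, hu, hu2⟩ := once57 hp h1 h2 hk
    rw [hu2, Nat.cast_mul, map_mul, map_mul, hw1 u hu, mul_one, map_pow]
  have hhigh : ∀ k, p ≤ k → k ≤ n → w (((n.factorial / k.factorial : ℕ) : L) * x ^ k) = w x ^ k := by
    intro k hk hkn
    rw [map_mul, hw1 _ (not_dvd57 hp h1 hk hkn), one_mul, map_pow]
  have hkey : w (p : L) = w x ^ p := by
    rcases lt_trichotomy (w (p : L)) (w x ^ p) with h | h | h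
    · exfalso
      have h3 := Valuation.map_sum_eq_of_lt w (s := Finset.range (n + 1))
        (f := fun k => ((n.factorial / k.factorial : ℕ) : L) * x ^ k) (j := p) (Finset.mem_range.2 (by omega)) (by
          intro k hk
          rw [Finset.mem_sdiff, Finset.mem_range, Finset.mem_singleton] at hk
          show w (((n.factorial / k.factorial : ℕ) : L) * x ^ k) < w (((n.factorial / p.factorial : ℕ) : L) * x ^ p)
          rw [hhigh p le_rfl h2]
          rcases lt_or_ge k p with h4 | h4
          · rw [hlow k h4]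
            exact lt_of_le_of_lt (mul_le_of_le_one_right' (pow_le_one' hx1.le k)) h
          · rw [hhigh k h4 (by omega)]
            exact pow_lt_pow_right_of_lt_one₀ hwxpos hx1 (by omega))
      rw [hroot x hx, map_zero] at h3
      have h5 := hhigh p le_rfl h2
      rw [← h3] at h5
      exact pow_ne_zero p hwx0 h5.symm
    · exact h
    · exfalso
      have h3 := Valuation.map_sum_eq_of_lt w (s := Finset.range (n + 1))
        (f := fun k => ((n.factorial / k.factorial : ℕ) : L) * x ^ k) (j := 0) (Finset.mem_range.2 (by omega)) (by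
          intro k hk
          rw [Finset.mem_sdiff, Finset.mem_range, Finset.mem_singleton] at hk
          show w (((n.factorial / k.factorial : ℕ) : L) * x ^ k) < w (((n.factorial / (0 : ℕ).factorial : ℕ) : L) * x ^ 0)
          rw [hlow 0 hp.pos, pow_zero, mul_one]
          rcases lt_or_ge k p with h4 | h4
          · rw [hlow k h4]
            have h6 : w x ^ k < 1 := pow_lt_one₀ zero_le hx1 hk.2
            calc w (p : L) * w x ^ k < w (p : L) * 1 := mul_lt_mul_of_pos_left h6 hwppos
              _ = w (p : L) := mul_one _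
          · rw [hhigh k h4 (by omega)]
            exact lt_of_le_of_lt (pow_le_pow_right_of_le_one' hx1.le h4) h)
      rw [hroot x hx, map_zero] at h3
      have h5 := hlow 0 hp.pos
      rw [← h3, pow_zero, mul_one] at h5
      exact hwp0 h5.symm
  -- the ramification index
  have hpO : ((p : ℕ) : 𝓞 L) ≠ 0 := by exact_mod_cast hp.ne_zero
  obtain ⟨xx, hxx⟩ : ∃ xx : 𝓞 L, algebraMap (𝓞 L) L xx = x := ⟨⟨x, hrootint x hx⟩, rfl⟩
  have hxx0 : xx ≠ 0 := by
    rintro rfl
    exact hx0 (by rw [← hxx, map_zero])
  have he : multiplicity P (Ideal.span {((p : ℕ) : 𝓞 L)}) = p * multiplicity P (Ideal.span {xx}) := by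
    rw [hcast, ← hxx, hw, v.valuation_of_algebraMap, v.valuation_of_algebraMap,
      v.intValuation_eq_exp_neg_multiplicity hpO, v.intValuation_eq_exp_neg_multiplicity hxx0, ← WithZero.exp_nsmul,
      WithZero.exp_inj] at hkey
    have h6 : ((multiplicity P (Ideal.span {((p : ℕ) : 𝓞 L)}) : ℕ) : ℤ) =
        (p : ℤ) * (multiplicity P (Ideal.span {xx}) : ℕ) := by
      rw [nsmul_eq_mul] at hkey
      have : (v.asIdeal) = P := rfl
      rw [this] at hkey
      linarith
    exact_mod_cast h6
  have hmap : Ideal.map (algebraMap ℤ (𝓞 L)) q = Ideal.span {((p : ℕ) : 𝓞 L)} := by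
    rw [hq, Ideal.map_span, Set.image_singleton, map_natCast]
  have hmap0 : Ideal.map (algebraMap ℤ (𝓞 L)) q ≠ ⊥ := by
    rw [hmap, Ne, Ideal.span_singleton_eq_bot]
    exact hpO
  have hr : P.ramificationIdx ℤ = multiplicity P (Ideal.span {((p : ℕ) : 𝓞 L)}) := by
    rw [Ideal.IsDedekindDomain.ramificationIdx_eq_multiplicity q P hmap0, hmap]
  have hmain := Ideal.ncard_primesOver_mul_ramificationIdxIn_mul_inertiaDegIn q (𝓞 L) Gal(L/ℚ)
  rw [Ideal.ramificationIdxIn_eq_ramificationIdx q P Gal(L/ℚ), hr, he, IsGaloisGroup.card_eq_finrank Gal(L/ℚ) ℚ L] at hmain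
  rw [← hmain]
  exact (Dvd.intro _ rfl : p ∣ p * _).mul_right _ |>.mul_left _

end Pool.Agent.Helper90.SP
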