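import Pool.Agent.Helper90.SP.Def

/-!
Block SP-S3 (for EveryExtension of MP_9fc8a5_nt): for `4 ∣ n` the automorphisms act on the roots of Schur's
polynomial by even permutations.

Proof. `f = E n`, roots `α_i` in `Ω` (`Fin n`, distinct: `f` is separable, because a common root of `f` and
`f' = f - X^n` is zero, and `f(0) = n!`). `Δ = det (vandermonde α) = ∏_{i<j} (α_j - α_i)`, `Δ ≠ 0`. An automorphism `w` with the
permutation `π` of the roots maps `Δ` to `det (vandermonde (α ∘ π)) = sign π Δ` (`Matrix.det_permute`,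
`Matrix.det_permute'`). `Δ² = (-1)^(n(n-1)/2) ∏_i f'(α_i) = ∏_i (- α_i^n) = (∏ α_i)^n = (n!)^n`, so `Δ = ± (n!)^(n/2)` is
rational and fixed by `w`. So `sign π = 1`. (`Algebra.discr_powerBasis_eq_norm` and its proof may help; or
`Polynomial.Splits`/`resultant`/`discr` lemmas of Mathlib.)
-/

set_option autoImplicit false

namespace Pool.Agent.Helper90.SP

open Polynomial

private lemma s3_even {n : ℕ} (hn : 4 ∣ n) : Even (n * (n - 1) / 2) := by
  obtain ⟨m, rfl⟩ := hn
  have h : 4 * m * (4 * m - 1) / 2 = 2 * (m * (4 * m - 1)) := by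
    rw [show 4 * m * (4 * m - 1) = 2 * (2 * (m * (4 * m - 1))) by ring]
    exact Nat.mul_div_cancel_left _ (by norm_num)
  rw [h]
  exact even_two_mul _

private lemma s3_sign {Ω : Type} [Field Ω] {n : ℕ} (hn : 4 ∣ n) :
    (∏ i : Fin n, ∏ _j ∈ Finset.Ioi i, (-1 : Ω)) = 1 := by
  simp only [Finset.prod_const, Fin.card_Ioi]
  rw [Finset.prod_pow_eq_pow_sum]
  have h : (∑ i : Fin n, (n - 1 - (i : ℕ))) = n * (n - 1) / 2 := by
    rw [Fin.sum_univ_eq_sum_range (fun i => n - 1 - i) n,
      Finset.sum_range_reflect (fun i => i) n, Finset.sum_range_id]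
  rw [h, (s3_even hn).neg_one_pow]

private lemma s3_disc {Ω : Type} [Field Ω] {n : ℕ} (hn : 4 ∣ n) (α : Fin n → Ω)
    (hq : ∀ i, ∏ j ∈ ({i} : Finset (Fin n))ᶜ, (α i - α j) = -(α i) ^ n) :
    (Matrix.vandermonde α).det ^ 2 = (∏ i, α i) ^ n := by
  have h1 : (Matrix.vandermonde α).det ^ 2 =
      (∏ i : Fin n, ∏ _j ∈ Finset.Ioi i, (-1 : Ω)) *
        ∏ i : Fin n, ∏ j ∈ Finset.Ioi i, ((α i - α j) * (α j - α i)) := by
    rw [Matrix.det_vandermonde, ← Finset.prod_mul_distrib, ← Finset.prod_pow]
    refine Finset.prod_congr rfl fun i _ => ?_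
    rw [← Finset.prod_mul_distrib, ← Finset.prod_pow]
    refine Finset.prod_congr rfl fun j _ => ?_
    ring
  rw [h1, s3_sign hn, one_mul,
    Finset.prod_prod_Ioi_mul_eq_prod_prod_off_diag (fun a b => α b - α a)]
  simp only [hq]
  have hn2 : Even n := by obtain ⟨m, rfl⟩ := hn; exact ⟨2 * m, by ring⟩
  rw [Finset.prod_neg, Finset.card_univ, Fintype.card_fin, hn2.neg_one_pow, one_mul,
    Finset.prod_pow]

private lemma s3_deriv {Ω : Type} [Field Ω] {n : ℕ} (α : Fin n → Ω) (i : Fin n) :
    (derivative (∏ j, (X - C (α j)))).eval (α i) = ∏ j ∈ ({i} : Finset (Fin n))ᶜ, (α i - α j) := by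
  rw [Fintype.prod_eq_mul_prod_compl i, derivative_mul]
  simp [eval_prod]

private lemma s3_sgn {β : Type} (d1 d2 : DecidableEq β) (f1 f2 : Fintype β) (σ : Equiv.Perm β) :
    @Equiv.Perm.sign β d1 f1 σ = @Equiv.Perm.sign β d2 f2 σ := by
  rw [Subsingleton.elim d1 d2, Subsingleton.elim f1 f2]

theorem E_even {n : ℕ} (hn : 4 ∣ n) (K Ω : Type) [Field K] [CharZero K] [Field Ω] [Algebra K Ω]
    [Fact (((((E n).map (algebraMap ℚ K)) : K[X]).map (algebraMap K Ω)).Splits)]
    [DecidableEq (((E n).map (algebraMap ℚ K)).rootSet Ω)] (w : Ω ≃ₐ[K] Ω) :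
    Equiv.Perm.sign (Gal.galActionHom ((E n).map (algebraMap ℚ K)) Ω
      (Gal.restrict ((E n).map (algebraMap ℚ K)) Ω w)) = 1 := by
  classical
  have hsp : ((((E n).map (algebraMap ℚ K)) : K[X]).map (algebraMap K Ω)).Splits := Fact.out
  set p : K[X] := (E n).map (algebraMap ℚ K) with hp
  haveI : CharZero Ω := charZero_of_injective_algebraMap (algebraMap K Ω).injective
  set q : Polynomial Ω := p.map (algebraMap K Ω) with hq
  have hqm : q.Monic := ((E_monic n).map _).map _
  have hpn : p.natDegree = n := by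
    rw [hp, (E_monic n).natDegree_map, E_natDegree]
  have hpd : derivative p = p - X ^ n := by
    rw [hp, derivative_map, E_derivative, Polynomial.map_sub, Polynomial.map_pow, map_X]
  have hqd : derivative q = q - X ^ n := by
    rw [hq, derivative_map, hpd, Polynomial.map_sub, Polynomial.map_pow, map_X]
  have hp0 : p.coeff 0 = (n.factorial : K) := by
    rw [hp, coeff_map, E_zero, map_natCast]
  have hq0 : q.coeff 0 = (n.factorial : Ω) := by
    rw [hq, coeff_map, hp0, map_natCast]
  have hsep : p.Separable := by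
    -- a common factor of `p` and `X ^ n`
    have h1 : IsCoprime p (X ^ n) := by
      apply IsCoprime.pow_right
      refine ((irreducible_X.coprime_iff_not_dvd).2 ?_).symm
      rw [X_dvd_iff, hp0]
      exact_mod_cast n.factorial_ne_zero
    have h2 : IsCoprime p (-X ^ n + p * 1) := h1.neg_right.add_mul_left_right 1
    have h3 : derivative p = -X ^ n + p * 1 := by
      rw [hpd]
      ring
    rw [Separable, h3]
    exact h2
  have hcard : Fintype.card (p.rootSet Ω) = n := by
    rw [card_rootSet_eq_natDegree hsep hsp, hpn]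
  let e : Fin n ≃ p.rootSet Ω := (Fintype.equivFinOfCardEq hcard).symm
  set α : Fin n → Ω := fun i => (e i : Ω) with hα
  have hinj : Function.Injective α := Subtype.val_injective.comp e.injective
  have hroots : q.roots = Finset.univ.val.map α := by
    refine (Multiset.Nodup.ext (nodup_roots hsep.map) ?_).2 ?_
    · exact (Multiset.nodup_map_iff_of_injective hinj).2 Finset.univ.nodup
    · intro x
      constructor
      · intro hx
        have hx' : x ∈ p.rootSet Ω := by
          rw [mem_rootSet_of_ne ((E_monic n).map _).ne_zero, aeval_def, ← eval_map]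
          exact (mem_roots'.1 hx).2
        rw [Multiset.mem_map]
        exact ⟨e.symm ⟨x, hx'⟩, Finset.mem_univ_val _, by simp [hα]⟩
      · intro hx
        rw [Multiset.mem_map] at hx
        obtain ⟨i, _, rfl⟩ := hx
        have := (e i).2
        rw [mem_rootSet_of_ne ((E_monic n).map _).ne_zero, aeval_def, ← eval_map] at this
        exact mem_roots'.2 ⟨hqm.ne_zero, this⟩
  have hprod : q = ∏ i, (X - C (α i)) := by
    rw [hsp.eq_prod_roots_of_monic hqm, hroots, Multiset.map_map]
    rfl
  have hq1 : ∀ i, ∏ j ∈ ({i} : Finset (Fin n))ᶜ, (α i - α j) = -(α i) ^ n := by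
    intro i
    rw [← s3_deriv, ← hprod, hqd]
    have h0 : q.eval (α i) = 0 := by
      have : α i ∈ q.roots := by
        rw [hroots]
        exact Multiset.mem_map_of_mem _ (Finset.mem_univ_val i)
      exact (mem_roots'.1 this).2
    simp [h0]
  have hd := s3_disc hn α hq1
  have hn2 : Even n := by obtain ⟨m, rfl⟩ := hn; exact ⟨2 * m, by ring⟩
  have hc : (∏ i, α i) = (n.factorial : Ω) := by
    have h1 : q.eval 0 = ∏ i, (0 - α i) := by
      conv_lhs => rw [hprod]
      simp [eval_prod]
    rw [← coeff_zero_eq_eval_zero, hq0] at h1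
    simp only [zero_sub] at h1
    rw [Finset.prod_neg, Finset.card_univ, Fintype.card_fin, hn2.neg_one_pow, one_mul] at h1
    exact h1.symm
  rw [hc] at hd
  set Δ : Ω := (Matrix.vandermonde α).det with hΔ
  have hΔ0 : Δ ≠ 0 := Matrix.det_vandermonde_ne_zero_iff.2 hinj
  have hfix : w Δ = Δ := by
    obtain ⟨m, hm⟩ := hn2
    have h2 : Δ ^ 2 = ((n.factorial : Ω) ^ m) ^ 2 := by
      rw [hd, ← pow_mul]
      congr 1
      omega
    rcases sq_eq_sq_iff_eq_or_eq_neg.1 h2 with h | h
    · rw [h, map_pow, map_natCast]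
    · rw [h, map_neg, map_pow, map_natCast]
  set σ := Gal.galActionHom p Ω (Gal.restrict p Ω w) with hσ
  let τ : Equiv.Perm (Fin n) := (e.symm.symm.trans σ).trans e.symm
  have hτ : Equiv.Perm.sign τ = Equiv.Perm.sign σ := Equiv.Perm.sign_symm_trans_trans σ e.symm
  have hα2 : ∀ i, w (α i) = α (τ i) := by
    intro i
    have h1 := Gal.galActionHom_restrict (p := p) (E := Ω) w (e i)
    simp only [hα, τ, Equiv.trans_apply, Equiv.symm_symm, Equiv.apply_symm_apply]
    exact h1.symm
  have hw : w Δ = (Equiv.Perm.sign τ : ℤ) * Δ := by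
    rw [hΔ, ← Matrix.det_permute τ]
    have h1 := (w : Ω →+* Ω).map_det (Matrix.vandermonde α)
    have h2 : (w : Ω →+* Ω).mapMatrix (Matrix.vandermonde α) = (Matrix.vandermonde α).submatrix τ id := by
      ext i j
      simp [Matrix.vandermonde_apply, hα2]
    rw [h2] at h1
    exact h1
  rw [hfix] at hw
  have hs : Equiv.Perm.sign τ = 1 := by
    rcases Int.units_eq_one_or (Equiv.Perm.sign τ) with h | h
    · exact h
    · exfalso
      rw [h] at hw
      push_cast at hw
      have : (2 : Ω) * Δ = 0 := by linear_combination hw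
      rcases mul_eq_zero.1 this with h3 | h3
      · exact two_ne_zero h3
      · exact hΔ0 h3
  have hfin := hτ.symm.trans hs
  exact (s3_sgn _ _ _ _ _).trans hfin

end Pool.Agent.Helper90.SP
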