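import Pool.Agent.Helper90.SP.J
import Pool.Agent.Helper90.SP.S1
import Pool.Agent.Helper90.SP.S2
import Pool.Agent.Helper90.SP.S3
import Pool.Agent.Helper94.Pr.Alt

/-!
For every Galois extension `N/K` of number fields there are number fields `Ω ⊇ N`, Galois over `K`, with
`Gal(Ω/N) ≅ A_n`, for infinitely many `n`: `Ω` is generated over `N` by the roots of Schur's polynomial.
-/

set_option autoImplicit false

namespace Pool.Agent.Helper90.SP

open Polynomial

/-- The Galois group of Schur's polynomial of degree `n = 2 ^ (2 r)` over `ℚ` has order at least `n!/2`. -/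
theorem factorial_le (r : ℕ) (hr : 2 ≤ r) :
    (2 ^ (2 * r)).factorial ≤ 2 * Module.finrank ℚ (E (2 ^ (2 * r))).SplittingField := by
  classical
  set n := 2 ^ (2 * r) with hn
  have hn16 : 16 ≤ n := by
    rw [hn]
    calc 16 = 2 ^ (2 * 2) := by norm_num
      _ ≤ 2 ^ (2 * r) := Nat.pow_le_pow_right (by norm_num) (by omega)
  have heven : ∃ k, n = 2 * k := ⟨2 ^ (2 * r - 1), by
    rw [hn, ← pow_succ', Nat.sub_add_cancel (by omega)]⟩
  have hirr : Irreducible (E n) := E_irreducible (2 * r)
  have hsep : (E n).Separable := hirr.separable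
  have hsf : IsSplittingField ℚ (E n).SplittingField (E n) := by
    have h := IsSplittingField.splittingField (E n)
    convert h
    exact Subsingleton.elim _ _
  have hfd : FiniteDimensional ℚ (E n).SplittingField :=
    IsSplittingField.finiteDimensional (E n).SplittingField (E n)
  have hL : NumberField (E n).SplittingField := { to_charZero := inferInstance, to_finiteDimensional := hfd }
  have hgal : IsGalois ℚ (E n).SplittingField := IsGalois.of_separable_splitting_field hsep
  have hsplit : ((E n).map (algebraMap ℚ (E n).SplittingField)).Splits := SplittingField.splits (E n)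
  have hfact : Fact (((E n).map (algebraMap ℚ (E n).SplittingField)).Splits) := ⟨hsplit⟩
  have hcard : Fintype.card ((E n).rootSet (E n).SplittingField) = n := by
    rw [card_rootSet_eq_natDegree hsep hsplit, E_natDegree]
  -- the prime
  obtain ⟨p, hp, hp1, hp2⟩ := Nat.exists_prime_lt_and_le_two_mul (n / 2) (by omega)
  have hpn : p ≤ n := by omega
  have hnp : n < 2 * p := by omega
  have hpodd : ∀ k, p ≠ 2 * k := by
    intro k hk
    have h2 : 2 ∣ p := ⟨k, hk⟩
    have := (Nat.prime_dvd_prime_iff_eq Nat.prime_two hp).1 h2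
    omega
  have hp3 : p + 3 ≤ n := by
    obtain ⟨k, hk⟩ := heven
    have h1 : p ≠ n := by rw [hk]; exact hpodd k
    have h2 : p ≠ n - 2 := by
      have : n - 2 = 2 * (k - 1) := by omega
      rw [this]; exact hpodd _
    have h3 : p ≠ n - 1 := by
      intro h3
      have h4 : n - 1 = (2 ^ r - 1) * (2 ^ r + 1) := by
        have h5 : (2 ^ r) * (2 ^ r) = n := by rw [hn, ← pow_add]; congr 1; omega
        obtain ⟨x, hx⟩ : ∃ x, 2 ^ r = x + 1 := ⟨2 ^ r - 1, (Nat.sub_add_cancel Nat.one_le_two_pow).symm⟩
        rw [← h5, hx]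
        have : (x + 1) * (x + 1) = x * (x + 1 + 1) + 1 := by ring
        rw [this]
        simp
      rw [h3, h4] at hp
      have h6 : 4 ≤ 2 ^ r := by
        calc 4 = 2 ^ 2 := by norm_num
          _ ≤ 2 ^ r := Nat.pow_le_pow_right (by norm_num) hr
      exact Nat.not_prime_mul (by omega) (by omega) hp
    omega
  have hdvd : p ∣ Module.finrank ℚ (E n).SplittingField := dvd_finrank hp hnp hpn (E n).SplittingField hsplit
  let G : Subgroup (Equiv.Perm ((E n).rootSet (E n).SplittingField)) := (Gal.galActionHom (E n) (E n).SplittingField).range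
  have hGcard : Nat.card G = Module.finrank ℚ (E n).SplittingField := by
    rw [← Gal.card_of_separable hsep]
    exact (Nat.card_congr (MonoidHom.ofInjective (Gal.galActionHom_injective (E n) (E n).SplittingField)).toEquiv).symm
  have htr : MulAction.IsPretransitive G ((E n).rootSet (E n).SplittingField) := by
    have h1 : MulAction.IsPretransitive (E n).Gal ((E n).rootSet (E n).SplittingField) :=
      Gal.galAction_isPretransitive (p := E n) (E := (E n).SplittingField) hirr
    refine ⟨fun x y => ?_⟩
    obtain ⟨g, hg⟩ := h1.exists_smul_eq x y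
    exact ⟨⟨Gal.galActionHom (E n) (E n).SplittingField g, g, rfl⟩, hg⟩
  have hA := alternating_le_of_prime G htr hp (by rw [hcard]; exact hnp) (by rw [hcard]; exact hp3)
    (by rw [hGcard]; exact hdvd)
  have h1 : Nat.card (alternatingGroup ((E n).rootSet (E n).SplittingField)) ≤ Nat.card G :=
    Nat.card_le_card_of_injective _ (Subgroup.inclusion_injective hA)
  have hnt : Nontrivial ((E n).rootSet (E n).SplittingField) := by
    rw [← Fintype.one_lt_card_iff_nontrivial, hcard]
    omega
  have h2 := two_mul_nat_card_alternatingGroup (α := (E n).rootSet (E n).SplittingField)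
  rw [Nat.card_perm, Nat.card_eq_fintype_card (α := (E n).rootSet (E n).SplittingField), hcard] at h2
  rw [← h2]
  omega

theorem exists_alt (K N : Type) [Field K] [NumberField K] [Field N] [NumberField N] [Algebra K N]
    [IsGalois K N] (m : ℕ) :
    ∃ (n : ℕ) (Ω : Type) (_ : Field Ω) (_ : NumberField Ω) (_ : Algebra K Ω) (_ : Algebra N Ω)
      (_ : IsScalarTower K N Ω) (_ : IsGalois K Ω), m ≤ n ∧
      Nonempty ((Ω ≃ₐ[N] Ω) ≃* alternatingGroup (Fin n)) := by
  classical
  obtain ⟨q, hq, hqp⟩ := Nat.exists_infinite_primes (2 * Module.finrank ℚ N + 3)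
  obtain ⟨r, hr2, hrm⟩ : ∃ r, 2 ≤ r ∧ m + q ≤ 2 ^ (2 * r) := by
    refine ⟨m + q + 2, by omega, ?_⟩
    have h1 : 2 * (m + q + 2) < 2 ^ (2 * (m + q + 2)) := Nat.lt_two_pow_self
    omega
  set n := 2 ^ (2 * r) with hn
  have hn4 : 4 ∣ n := by
    rw [hn]
    exact (show 4 = 2 ^ 2 by norm_num) ▸ pow_dvd_pow 2 (by omega : 2 ≤ 2 * r)
  have hirr : Irreducible (E n) := E_irreducible (2 * r)
  set f := E n with hf
  have hfs : f.Separable := hirr.separable
  set fK : K[X] := f.map (algebraMap ℚ K) with hfK
  set fN : N[X] := f.map (algebraMap ℚ N) with hfN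
  have hKs : fK.Separable := hfs.map
  have hNs : fN.Separable := hfs.map
  have hKN : fK.map (algebraMap K N) = fN := by
    have h4 := Polynomial.map_map (algebraMap ℚ K) (algebraMap K N) f
    rw [← IsScalarTower.algebraMap_eq ℚ K N] at h4
    exact h4
  let Ω := fN.SplittingField
  have hfd : FiniteDimensional N Ω := IsSplittingField.finiteDimensional Ω fN
  have hfdQ : FiniteDimensional ℚ Ω := FiniteDimensional.trans ℚ N Ω
  have hΩ : NumberField Ω :=
    { to_charZero := inferInstance
      to_finiteDimensional := hfdQ }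
  have hfdK : FiniteDimensional K Ω := FiniteDimensional.trans K N Ω
  have hsf : IsSplittingField N Ω (fK.map (algebraMap K N)) := by
    rw [hKN]
    infer_instance
  obtain ⟨P, hP1, hP2⟩ := IsGalois.is_separable_splitting_field K N
  have hmul : IsSplittingField K Ω (P * fK) :=
    IsSplittingField.mul (K := N) Ω P fK hP1.ne_zero hKs.ne_zero
  have hnorm : Normal K Ω := Normal.of_isSplittingField (P * fK)
  have hgal : IsGalois K Ω := { to_isSeparable := inferInstance, to_normal := hnorm }
  have hgalN : IsGalois N Ω := IsGalois.of_separable_splitting_field hNs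
  have hsplit : (fN.map (algebraMap N Ω)).Splits := SplittingField.splits fN
  have hfact : Fact ((fN.map (algebraMap N Ω)).Splits) := ⟨hsplit⟩
  have hcard : Fintype.card (fN.rootSet Ω) = n := by
    rw [card_rootSet_eq_natDegree hNs hsplit, hfN, natDegree_map, hf, E_natDegree]
  let e : fN.rootSet Ω ≃ Fin n := Fintype.equivFinOfCardEq hcard
  let ρ0 : (Ω ≃ₐ[N] Ω) →* Equiv.Perm (fN.rootSet Ω) :=
    (Gal.galActionHom fN Ω).comp (Gal.restrict fN Ω)
  let ρ : (Ω ≃ₐ[N] Ω) →* Equiv.Perm (Fin n) := (e.permCongrHom).toMonoidHom.comp ρ0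
  have hinj : Function.Injective ρ := by
    rw [injective_iff_map_eq_one]
    intro w hw
    have h1 : ρ0 w = 1 := by
      have h2 : e.permCongrHom (ρ0 w) = 1 := hw
      exact (MulEquiv.map_eq_one_iff _).1 h2
    have hw' : (w : Ω →ₐ[N] Ω) = AlgHom.id N Ω := by
      refine AlgHom.ext_of_adjoin_eq_top (IsSplittingField.adjoin_rootSet Ω fN) ?_
      intro x hx
      have h3 := Gal.galActionHom_restrict fN Ω w ⟨x, hx⟩
      have h4 : Gal.galActionHom fN Ω (Gal.restrict fN Ω w) = 1 := h1
      rw [h4, Equiv.Perm.one_apply] at h3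
      exact h3.symm
    ext x
    exact congrArg (fun φ : Ω →ₐ[N] Ω => φ x) hw'
  have hsign : ∀ w, Equiv.Perm.sign (ρ w) = 1 := by
    intro w
    have h1 : Equiv.Perm.sign (ρ0 w) = 1 := E_even hn4 N Ω w
    have h2 : ρ w = e.permCongr (ρ0 w) := rfl
    rw [h2, Equiv.Perm.sign_permCongr]
    exact h1
  -- the order of the image
  let H : Subgroup (Equiv.Perm (Fin n)) := ρ.range
  have hcH : Nat.card H = Module.finrank N Ω := by
    rw [← IsGalois.card_aut_eq_finrank]
    exact (Nat.card_congr (MonoidHom.ofInjective hinj).toEquiv).symm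
  have hsplitQ : (f.map (algebraMap ℚ Ω)).Splits := by
    have h2 : f.map (algebraMap ℚ Ω) = fN.map (algebraMap N Ω) := by
      have h4 := Polynomial.map_map (algebraMap ℚ N) (algebraMap N Ω) f
      rw [← IsScalarTower.algebraMap_eq ℚ N Ω] at h4
      exact h4.symm
    rw [h2]
    exact SplittingField.splits fN
  have hle : Module.finrank ℚ f.SplittingField ≤ Module.finrank ℚ Ω :=
    LinearMap.finrank_le_finrank_of_injective
      (f := (SplittingField.lift f hsplitQ).toLinearMap) (SplittingField.lift f hsplitQ).injective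
  have htower : Module.finrank ℚ N * Module.finrank N Ω = Module.finrank ℚ Ω :=
    Module.finrank_mul_finrank ℚ N Ω
  have hfac := factorial_le r hr2
  rw [← hn, ← hf] at hfac
  have hidx := H.index_mul_card
  rw [hcH, Nat.card_perm, Nat.card_fin] at hidx
  have hNΩ : 0 < Module.finrank N Ω := Module.finrank_pos
  have hi0 : H.index ≠ 0 := by
    intro h0
    rw [h0, zero_mul] at hidx
    exact absurd hidx.symm (Nat.factorial_pos n).ne'
  have hi : H.index ≤ 2 * Module.finrank ℚ N := by
    have h3 : H.index * Module.finrank N Ω ≤ 2 * Module.finrank ℚ N * Module.finrank N Ω := by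
      rw [hidx, mul_assoc, htower]
      omega
    exact Nat.le_of_mul_le_mul_right h3 hNΩ
  have hA : alternatingGroup (Fin n) ≤ H :=
    Pool.Agent.Helper94.Pr.alternating_le_of_index H hqp (by omega) (by omega) hi0 (by omega)
  refine ⟨n, Ω, inferInstance, hΩ, inferInstance, inferInstance, inferInstance, hgal, by omega,
    ⟨MulEquiv.ofBijective (ρ.codRestrict (alternatingGroup (Fin n))
      (fun w => Equiv.Perm.mem_alternatingGroup.2 (hsign w))) ⟨?_, ?_⟩⟩⟩
  · intro v w hvw
    exact hinj (congrArg Subtype.val hvw)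
  · rintro ⟨x, hx⟩
    obtain ⟨w, hw⟩ := hA hx
    exact ⟨w, Subtype.ext hw⟩

end Pool.Agent.Helper90.SP
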