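import Mathlib

/-!
Schur's polynomial `n! (1 + X + X²/2! + ... + Xⁿ/n!)` (for EveryExtension of MP_9fc8a5_nt).
-/

set_option autoImplicit false

namespace Pool.Agent.Helper90.SP

open Polynomial

/-- The polynomial with the coefficients `n!/k!`, `0 ≤ k ≤ n`. -/
noncomputable def E (n : ℕ) : ℚ[X] :=
  ∑ k ∈ Finset.range (n + 1), C ((n.factorial : ℚ) / (k.factorial : ℚ)) * X ^ k

lemma E_coeff (n k : ℕ) : (E n).coeff k =
    if k ≤ n then (n.factorial : ℚ) / (k.factorial : ℚ) else 0 := by
  unfold E
  rw [finsetSum_coeff]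
  simp only [coeff_C_mul, coeff_X_pow, mul_ite, mul_one, mul_zero]
  rw [Finset.sum_ite_eq (Finset.range (n + 1)) k (fun j => (n.factorial : ℚ) / (j.factorial : ℚ))]
  simp only [Finset.mem_range, Nat.lt_succ_iff]

lemma E_natDegree (n : ℕ) : (E n).natDegree = n := by
  apply natDegree_eq_of_le_of_coeff_ne_zero
  · rw [natDegree_le_iff_coeff_eq_zero]
    intro k hk
    rw [E_coeff, if_neg (by omega)]
  · rw [E_coeff, if_pos le_rfl, div_self (by exact_mod_cast n.factorial_ne_zero)]
    exact one_ne_zero

lemma E_monic (n : ℕ) : (E n).Monic := by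
  rw [Monic, leadingCoeff, E_natDegree, E_coeff, if_pos le_rfl,
    div_self (by exact_mod_cast n.factorial_ne_zero)]

lemma E_zero (n : ℕ) : (E n).coeff 0 = n.factorial := by
  rw [E_coeff, if_pos (Nat.zero_le n)]
  simp

lemma E_derivative (n : ℕ) : derivative (E n) = E n - X ^ n := by
  ext k
  rw [coeff_derivative, coeff_sub, coeff_X_pow, E_coeff, E_coeff]
  rcases lt_trichotomy k n with h | h | h
  · rw [if_pos (by omega), if_pos h.le, if_neg (by omega), Nat.factorial_succ]
    have h1 : (k.factorial : ℚ) ≠ 0 := by exact_mod_cast k.factorial_ne_zero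
    have h2 : ((k : ℚ) + 1) ≠ 0 := by positivity
    push_cast
    field_simp
    ring
  · subst h
    rw [if_neg (by omega), if_pos le_rfl, if_pos rfl,
      div_self (by exact_mod_cast k.factorial_ne_zero)]
    ring
  · rw [if_neg (by omega), if_neg (by omega), if_neg (by omega)]
    ring

/-- The coefficients `n!/k!` are integers. -/
lemma E_coeff_int (n k : ℕ) (hk : k ≤ n) :
    (n.factorial : ℚ) / (k.factorial : ℚ) = ((n.factorial / k.factorial : ℕ) : ℚ) := by
  rw [Nat.cast_div (Nat.factorial_dvd_factorial hk) (by exact_mod_cast k.factorial_ne_zero)]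

end Pool.Agent.Helper90.SP
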