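import Mathlib

/-!
Block SP-J (for EveryExtension of MP_9fc8a5_nt): Jordan's theorem for cycles of prime length. A transitive
permutation group of degree `n` whose order is divisible by a prime `p` with `n/2 < p ≤ n - 3` contains
the alternating group.

Proof. (1) Cauchy: `c ∈ G` of order `p`; all cycles of `c` have length `p` and `2p > n`: `c` is a
`p`-cycle (`Equiv.Perm.cycleType`, or `c.support.card`). (2) `G` is primitive: let `B` be a block with at
least 2 elements, `B ≠ univ`; there are at most `n/2 < p` translates of `B`, and `c` permutes them, so `c`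
fixes each of them (orbits of `c` have 1 or `p` elements); the translate which contains a point of the
support of `c` contains the whole support, so its size is `≥ p > n/2`, and it divides `n`: it is `univ`.
(3) `s` = fixed points of `c`, `|s| = n - p = k ≥ 3`. The fixing subgroup of `s` in `G` contains `c`, so it is
transitive on the complement, of prime cardinality `p`, so preprimitive;
`MulAction.IsPreprimitive.isMultiplyPreprimitive` (Mathlib.GroupTheory.GroupAction.Jordan) with
`s.ncard = (k-1) + 1` gives: `G` is `(k+1)`-fold preprimitive, so `k`-fold transitive. (4) For a permutation `τ`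
of `s` there is `g ∈ G` with `g = τ` on `s`. `g c g⁻¹` has the same support as `c`. `H` = fixing subgroup of `s`
in `G`, its order divides `p!`, so `⟨c⟩` and `⟨g c g⁻¹⟩` are Sylow `p`-subgroups of `H`: there is `h ∈ H` with
`h g c g⁻¹ h⁻¹ ∈ ⟨c⟩`. So `g' = h g` normalises `⟨c⟩` and is `τ` on `s`. (5) Take three points `x, y, z` of `s`,
`τ₁ = (x y)`, `τ₂ = (x z)`, and `g₁`, `g₂` as in (4). The commutator `w = g₁ g₂ g₁⁻¹ g₂⁻¹` commutes with `c`
(the automorphisms of a cyclic group commute: `gᵢ c gᵢ⁻¹ = c ^ aᵢ`), it is a 3-cycle on `s`, and on the support of `c` it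
is a power of `c` (`Equiv.Perm.IsCycle`, centralizer of a cycle). So `w ^ p` is the identity on the support of
`c` and, `p ≥ 5`, a 3-cycle on `s`: `w ^ p ∈ G` is a 3-cycle. (6)
`alternatingGroup_le_of_isPreprimitive_of_isThreeCycle_mem`.
(Any other proof is welcome, for example with `w ^ p` replaced by `w ^ (p * a)`.)
-/

set_option autoImplicit false

namespace Pool.Agent.Helper90.SP

open Equiv Equiv.Perm MulAction
open scoped Pointwise

/-- `p ^ 2` does not divide the order of a subgroup of the symmetric group, if `n < 2 p`. -/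
private lemma card_fac69 {α : Type*} [Fintype α] [DecidableEq α] (H : Subgroup (Perm α)) {p : ℕ}
    (hp : p.Prime) (h1 : Fintype.card α < 2 * p) (hpH : p ∣ Nat.card H) :
    (Nat.card H).factorization p = 1 := by
  have hpos : Nat.card H ≠ 0 := Nat.card_pos.ne'
  have hdvd : Nat.card H ∣ (Fintype.card α).factorial := by
    have := Subgroup.card_subgroup_dvd_card H
    rwa [Nat.card_eq_fintype_card (α := Perm α), Fintype.card_perm] at this
  have h2 : ¬ p ^ 2 ∣ (Fintype.card α).factorial := by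
    have hlog : Nat.log p (Fintype.card α) < 2 := by
      apply Nat.log_lt_of_lt_pow'
      · norm_num
      · nlinarith [hp.two_le]
    rw [Nat.Prime.pow_dvd_factorial_iff hp hlog]
    have : Fintype.card α / p < 2 := by
      rw [Nat.div_lt_iff_lt_mul hp.pos]
      exact h1
    simp
    omega
  apply le_antisymm
  · by_contra h
    rw [not_le] at h
    exact h2 (((hp.pow_dvd_iff_le_factorization hpos).2 h).trans hdvd)
  · exact (hp.pow_dvd_iff_le_factorization hpos).1 (by rwa [pow_one])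

/-- Two cyclic subgroups of order `p` of `H` are conjugate. -/
private lemma conj69 {α : Type*} [Fintype α] [DecidableEq α] (H : Subgroup (Perm α)) {p : ℕ}
    (hp : p.Prime) (h1 : Fintype.card α < 2 * p) {c d : Perm α} (hc : c ∈ H) (hd : d ∈ H)
    (hoc : orderOf c = p) (hod : orderOf d = p) :
    ∃ h ∈ H, ∃ a : ℤ, h * d * h⁻¹ = c ^ a := by
  have : Fact p.Prime := ⟨hp⟩
  have hoc' : orderOf (⟨c, hc⟩ : H) = p := by rwa [Subgroup.orderOf_mk]
  have hod' : orderOf (⟨d, hd⟩ : H) = p := by rwa [Subgroup.orderOf_mk]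
  have hf := card_fac69 H hp h1 (by rw [← hoc']; exact orderOf_dvd_natCard _)
  let P : Sylow p H := Sylow.ofCard (Subgroup.zpowers (⟨c, hc⟩ : H))
    (by rw [Nat.card_zpowers, hoc', hf, pow_one])
  let Q : Sylow p H := Sylow.ofCard (Subgroup.zpowers (⟨d, hd⟩ : H))
    (by rw [Nat.card_zpowers, hod', hf, pow_one])
  obtain ⟨h, hh⟩ := MulAction.exists_smul_eq H Q P
  have h3 : h * (⟨d, hd⟩ : H) * h⁻¹ ∈ Subgroup.zpowers (⟨c, hc⟩ : H) := by
    have h4 : MulAut.conj h • (Q : Subgroup H) = (P : Subgroup H) := by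
      rw [← Sylow.coe_subgroup_smul, hh]
    have h5 : (P : Subgroup H) = Subgroup.zpowers (⟨c, hc⟩ : H) := rfl
    have h6 : (⟨d, hd⟩ : H) ∈ (Q : Subgroup H) := Subgroup.mem_zpowers _
    rw [← h5, ← h4]
    exact Subgroup.smul_mem_pointwise_smul _ (MulAut.conj h) _ h6
  obtain ⟨a, ha⟩ := Subgroup.mem_zpowers_iff.1 h3
  refine ⟨h, h.2, a, ?_⟩
  have := congrArg (fun z : H => (z : Perm α)) ha
  simpa using this.symm

/-- If `g` and `t` agree on the fixed points of `c`, and `t` permutes them, then so do the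
inverses. -/
private lemma inv69 {α : Type*} {c g t : Perm α} (ht : ∀ b, c b = b ↔ c (t b) = t b)
    (hgt : ∀ b, c b = b → g b = t b) (b : α) (hb : c b = b) :
    g⁻¹ b = t⁻¹ b ∧ c (t⁻¹ b) = t⁻¹ b := by
  have h1 : c (t⁻¹ b) = t⁻¹ b := (ht _).2 (by simpa using hb)
  refine ⟨?_, h1⟩
  rw [inv_eq_iff_eq, hgt _ h1]
  simp

/-- A permutation of the fixed points of the cycle `c` is induced by an element of `G` which
normalises the group generated by `c`. -/
private lemma ext69 {α : Type*} [Fintype α] [DecidableEq α] (G : Subgroup (Perm α)) {p m : ℕ}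
    (hp : p.Prime) (h1 : Fintype.card α < 2 * p) {c : Perm α} (hcG : c ∈ G) (hord : orderOf c = p)
    (htr : IsMultiplyPretransitive G α m) (hm : Fintype.card {b // c b = b} = m) {t : Perm α}
    (ht : ∀ b, c b = b ↔ c (t b) = t b) :
    ∃ g ∈ G, (∀ b, c b = b → g b = t b) ∧ ∃ a : ℤ, g * c * g⁻¹ = c ^ a := by
  have e : Fin m ≃ {b // c b = b} := (finCongr hm.symm).trans (Fintype.equivFin _).symm
  let f₁ : Fin m ↪ α := e.toEmbedding.trans (Function.Embedding.subtype _)
  let f₂ : Fin m ↪ α := f₁.trans t.toEmbedding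
  obtain ⟨⟨g₀, hg₀⟩, hg⟩ := htr.exists_smul_eq f₁ f₂
  have hgt : ∀ b, c b = b → g₀ b = t b := by
    intro b hb
    have h2 := DFunLike.congr_fun hg (e.symm ⟨b, hb⟩)
    have h3 : f₁ (e.symm ⟨b, hb⟩) = b := by simp [f₁]
    have h4 : f₂ (e.symm ⟨b, hb⟩) = t b := by simp [f₂, f₁]
    rw [h4] at h2
    rw [← h2]
    change g₀ b = g₀ (f₁ (e.symm ⟨b, hb⟩))
    rw [h3]
  let H : Subgroup (Perm α) := G ⊓ fixingSubgroup (Perm α) {b | c b = b}
  have hcH : c ∈ H := by
    refine Subgroup.mem_inf.2 ⟨hcG, ?_⟩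
    rw [mem_fixingSubgroup_iff]
    intro b hb
    exact hb
  have hdH : g₀ * c * g₀⁻¹ ∈ H := by
    refine Subgroup.mem_inf.2 ⟨G.mul_mem (G.mul_mem hg₀ hcG) (G.inv_mem hg₀), ?_⟩
    rw [mem_fixingSubgroup_iff]
    intro b hb
    obtain ⟨h5, h6⟩ := inv69 ht hgt b hb
    change g₀ (c (g₀⁻¹ b)) = b
    rw [h5, h6, hgt _ h6]
    simp
  have hod : orderOf (g₀ * c * g₀⁻¹) = p := by
    rw [← hord]
    exact orderOf_injective (MulAut.conj g₀).toMonoidHom (MulAut.conj g₀).injective c
  obtain ⟨h, hh, a, ha⟩ := conj69 H hp h1 hcH hdH hord hod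
  refine ⟨h * g₀, G.mul_mem (Subgroup.mem_inf.1 hh).1 hg₀, ?_, a, ?_⟩
  · intro b hb
    rw [Perm.mul_apply, hgt b hb]
    have h7 := (Subgroup.mem_inf.1 hh).2
    rw [mem_fixingSubgroup_iff] at h7
    exact h7 (t b) ((ht b).1 hb)
  · rw [← ha]
    group

private lemma swap69 {α : Type*} [DecidableEq α] {c : Perm α} {x y : α} (hx : c x = x)
    (hy : c y = y) (b : α) : c b = b ↔ c (swap x y b) = swap x y b := by
  by_cases hbx : b = x
  · subst hbx
    rw [swap_apply_left]
    simp [hx, hy]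
  · by_cases hby : b = y
    · subst hby
      rw [swap_apply_right]
      simp [hx, hy]
    · rw [swap_apply_of_ne_of_ne hbx hby]

theorem alternating_le_of_prime {α : Type*} [Fintype α] [DecidableEq α] (G : Subgroup (Perm α))
    (hG : MulAction.IsPretransitive G α) {p : ℕ} (hp : p.Prime) (h1 : Fintype.card α < 2 * p)
    (h2 : p + 3 ≤ Fintype.card α) (hpG : p ∣ Nat.card G) : alternatingGroup α ≤ G := by
  classical
  have : Fact p.Prime := ⟨hp⟩
  obtain ⟨⟨c, hcG⟩, hc'⟩ := exists_prime_orderOf_dvd_card' p hpG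
  have hord : orderOf c = p := by rwa [Subgroup.orderOf_mk] at hc'
  have hcyc : c.IsCycle := isCycle_of_prime_order (by rwa [hord])
    (by rw [hord]; exact lt_of_le_of_lt (Finset.card_le_univ _) h1)
  have hsup : c.support.card = p := by rw [← hcyc.orderOf, hord]
  obtain ⟨k, hk⟩ : ∃ k, Fintype.card α = p + (k + 3) := ⟨Fintype.card α - p - 3, by omega⟩
  -- the fixing subgroup of the fixed points is transitive on the support
  have hsc : Set.ncard ((c.support)ᶜ : Set α) = k + 2 + 1 := by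
    apply Nat.add_left_cancel
    rw [Set.ncard_add_ncard_compl, Set.ncard_coe_finset, hsup, Nat.card_eq_fintype_card, hk]
  have hprim : IsPreprimitive (fixingSubgroup G ((c.support)ᶜ : Set α))
      (SubMulAction.ofFixingSubgroup G ((c.support)ᶜ : Set α)) := by
    have := isPretransitive_of_isCycle_mem hcyc hcG
    apply IsPreprimitive.of_prime_card
    convert! hp
    rw [Nat.card_eq_fintype_card, Fintype.card_subtype, ← hsup]
    apply congr_arg
    ext x
    simp [SubMulAction.mem_ofFixingSubgroup_iff]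
  have hprimG : IsPreprimitive G α := by
    let f : SubMulAction.ofFixingSubgroup G ((c.support)ᶜ : Set α)
        →ₑ[(fixingSubgroup G ((c.support)ᶜ : Set α)).subtype] α :=
      { toFun := Subtype.val
        map_smul' := fun _ _ => rfl }
    apply IsPreprimitive.of_card_lt (f := f)
    have h3 : Set.range f = (c.support : Set α) := by
      ext x
      constructor
      · rintro ⟨⟨y, hy⟩, rfl⟩
        rw [SubMulAction.mem_ofFixingSubgroup_iff] at hy
        by_contra h
        exact hy h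
      · intro hx
        exact ⟨⟨x, by rw [SubMulAction.mem_ofFixingSubgroup_iff]; exact fun h => h hx⟩, rfl⟩
    rw [h3, Set.ncard_coe_finset, hsup, Nat.card_eq_fintype_card]
    exact h1
  have hmul : IsMultiplyPreprimitive G α (k + 2 + 2) :=
    hprimG.isMultiplyPreprimitive hsc
      (by rw [Nat.card_eq_fintype_card, hk]; have := hp.two_le; omega) hprim
  have htr : IsMultiplyPretransitive G α (k + 3) := by
    have := hmul.isMultiplyPretransitive
    exact isMultiplyPretransitive_of_le (n := k + 2 + 2) (by omega)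
      (by rw [Nat.card_eq_fintype_card, hk]; have := hp.two_le; omega)
  have hfix : Fintype.card {b // c b = b} = k + 3 := by
    have h3 : (c.supportᶜ).card = k + 3 := by
      rw [Finset.card_compl, hsup, hk]
      omega
    rw [Fintype.card_subtype, ← h3]
    congr 1
    ext b
    simp
  -- three fixed points
  obtain ⟨x, y, z, hx, hy, hz, hxy, hxz, hyz⟩ : ∃ x y z, c x = x ∧ c y = y ∧ c z = z ∧ x ≠ y ∧
      x ≠ z ∧ y ≠ z := by
    have h3 : 2 < (Finset.univ : Finset {b // c b = b}).card := by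
      rw [Finset.card_univ, hfix]
      omega
    obtain ⟨x, y, z, -, -, -, hxy, hxz, hyz⟩ := Finset.two_lt_card_iff.1 h3
    exact ⟨x, y, z, x.2, y.2, z.2, fun h => hxy (Subtype.ext h), fun h => hxz (Subtype.ext h),
      fun h => hyz (Subtype.ext h)⟩
  have ht₁ := swap69 hx hy
  have ht₂ := swap69 hx hz
  obtain ⟨g₁, hg₁, hgt₁, a₁, ha₁⟩ := ext69 G hp h1 hcG hord htr hfix ht₁
  obtain ⟨g₂, hg₂, hgt₂, a₂, ha₂⟩ := ext69 G hp h1 hcG hord htr hfix ht₂
  have hA : (g₁ * g₂) * c * (g₁ * g₂)⁻¹ = (g₂ * g₁) * c * (g₂ * g₁)⁻¹ := by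
    have e1 : (g₁ * g₂) * c * (g₁ * g₂)⁻¹ = g₁ * (g₂ * c * g₂⁻¹) * g₁⁻¹ := by group
    have e2 : (g₂ * g₁) * c * (g₂ * g₁)⁻¹ = g₂ * (g₁ * c * g₁⁻¹) * g₂⁻¹ := by group
    rw [e1, e2, ha₁, ha₂, ← conj_zpow, ← conj_zpow, ha₁, ha₂, ← zpow_mul, ← zpow_mul, mul_comm]
  obtain ⟨w, hw⟩ : ∃ w, w = (g₂ * g₁)⁻¹ * (g₁ * g₂) := ⟨_, rfl⟩
  have hwG : w ∈ G := by
    rw [hw]
    exact G.mul_mem (G.inv_mem (G.mul_mem hg₂ hg₁)) (G.mul_mem hg₁ hg₂)
  have hwc : w * c = c * w := by
    have h3 : w * c * w⁻¹ = c := by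
      have : w * c * w⁻¹ = (g₂ * g₁)⁻¹ * ((g₁ * g₂) * c * (g₁ * g₂)⁻¹) * (g₂ * g₁) := by
        rw [hw]
        group
      rw [this, hA]
      group
    calc w * c = (w * c * w⁻¹) * w := by group
      _ = c * w := by rw [h3]
  have hwfix : ∀ b, c b = b → w b = swap x y (swap x z (swap x y (swap x z b))) ∧
      c (w b) = w b := by
    intro b hb
    have e1 : w b = g₁⁻¹ (g₂⁻¹ (g₁ (g₂ b))) := by
      rw [hw]
      simp [Perm.mul_apply]
    have k1 := (ht₂ b).1 hb
    have k2 := (ht₁ _).1 k1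
    obtain ⟨k3, k4⟩ := inv69 ht₂ hgt₂ _ k2
    obtain ⟨k5, k6⟩ := inv69 ht₁ hgt₁ _ k4
    rw [e1, hgt₂ b hb, hgt₁ _ k1, k3, k5]
    rw [swap_inv, swap_inv] at k6 ⊢
    exact ⟨rfl, k6⟩
  obtain ⟨q, hq, hqc⟩ : ∃ q, c q ≠ q ∧ ∀ b, c b ≠ b → c.SameCycle q b := by
    obtain ⟨q, hq, h3⟩ := hcyc
    exact ⟨q, hq, fun b hb => h3 hb⟩
  have hwq : c (w q) ≠ w q := by
    intro h
    apply hq
    have h3 : w (c q) = c (w q) := by
      have := congrArg (fun f : Perm α => f q) hwc
      simpa [Perm.mul_apply] using this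
    rw [h] at h3
    exact w.injective h3
  obtain ⟨j, hj⟩ := hqc (w q) hwq
  have hwj : ∀ b, c b ≠ b → w b = (c ^ j) b := by
    intro b hb
    obtain ⟨i, hi⟩ := hqc b hb
    have h3 : w * c ^ i = c ^ i * w := (Commute.zpow_right hwc i)
    have h4 : w ((c ^ i) q) = (c ^ i) (w q) := by
      have := congrArg (fun f : Perm α => f q) h3
      simpa [Perm.mul_apply] using this
    rw [← hi, h4, ← hj, ← Perm.mul_apply, ← Perm.mul_apply, ← zpow_add, ← zpow_add, add_comm]
  have hcfix : ∀ (i : ℤ) b, c b = b → (c ^ i) b = b := by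
    intro i b hb
    exact Perm.zpow_apply_eq_self_of_apply_eq_self hb i
  have hu : (c ^ j)⁻¹ * w = (swap x y * swap x z) * (swap x y * swap x z) := by
    ext b
    by_cases hb : c b = b
    · obtain ⟨h3, h4⟩ := hwfix b hb
      rw [Perm.mul_apply, ← zpow_neg, hcfix _ _ h4, h3]
      rfl
    · rw [Perm.mul_apply, hwj b hb]
      have hbx : b ≠ x := fun h => hb (h ▸ hx)
      have hby : b ≠ y := fun h => hb (h ▸ hy)
      have hbz : b ≠ z := fun h => hb (h ▸ hz)
      simp [Perm.mul_apply, swap_apply_of_ne_of_ne hbx hby, swap_apply_of_ne_of_ne hbx hbz]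
  refine alternatingGroup_le_of_isPreprimitive_of_isThreeCycle_mem hprimG
    (isThreeCycle_swap_mul_swap_same hxy hxz hyz).isThreeCycle_sq ?_
  rw [← hu]
  exact G.mul_mem (G.inv_mem (G.zpow_mem hcG j)) hwG

end Pool.Agent.Helper90.SP
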